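import Pool.Agent.Lib.LU3.Rows

/-!
# DefectTwo, RowPOL: the statements of its parts (helper13)

`RowPOL` follows from `RowClean` (R12), `RowT` (R13) and `RowSub` (subtraction of the constant of
`g`) by `RowFin` (R14).
-/

set_option autoImplicit false

open Polynomial

namespace Pool.Agent.D2h13

open Pool.Agent.H15JM (RVal)
open Pool.Agent.LU1 Pool.Agent.LU3

universe u

section Defs

variable {k Ω : Type u} [Field k] [Field Ω] [Algebra k Ω] {v : RVal Ω}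

/-- The hypotheses on `H` at one frame. -/
structure HLoc (B : BF k v) (H : Polynomial Ω) (h : ℕ) (σ : ℝ) : Prop where
  mem : ∀ j, H.coeff j ∈ B.R
  low : ∀ θ ∈ B.R, ∀ i, 0 < i → i < h →
    CGe B (((h : ℝ) - i) * σ) ((hasseDeriv i H).eval θ)
  unit : ∀ θ ∈ B.R, CPos B ((hasseDeriv h H).eval θ - 1)
  high : ∀ θ ∈ B.R, ∀ i, h < i → CPos B ((hasseDeriv i H).eval θ)
  val : ∀ θ ∈ B.R, H.eval θ ≠ 0 ∧ v (H.eval θ) < h * σ

/-- A cleaned element with respect to a T-step `B → B'`: `lam` is the content of `f` in `B'`,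
`f = ∑_{l ∈ I} e_l χ(lam - l β) y^l + (content > lam in B')`, `β = v(y)`, and one of the monomials
of level `lam` is visible. -/
structure Clean (h : ℕ) (B B' : BF k v) (f : Ω) (lam : ℝ) (I : Finset ℕ) (e : ℕ → k) :
    Prop where
  mem : ∀ l ∈ I, lam - l * v B.y ∈ B.Γ
  nonneg : ∀ l ∈ I, 0 ≤ lam - l * v B.y
  ne : ∀ l ∈ I, e l ≠ 0
  vis : ∃ l ∈ I, Vis h B.Γ (lam - l * v B.y) l
  rem : ∃ Λ ∈ B'.Γ, lam < Λ ∧ ∃ a ∈ B'.R,
    f - ∑ l ∈ I, algebraMap k Ω (e l) * B.χ (lam - l * v B.y) * B.y ^ l = B'.χ Λ * a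

end Defs

/-- R12: cleaning. -/
def RowClean (k Ω : Type u) [Field k] [Field Ω] [Algebra k Ω] (v : RVal Ω) (r : ℕ) : Prop :=
  ∀ p : ℕ, p.Prime → CharP k p → IsAlgClosed k → Ctx k v r → ∀ t : ℕ, 0 < t → ∀ h : ℕ,
    h = p ^ t → ∀ (B B' : BF k v) (q : ℕ) (c : k) (s : ℝ → ℤ → ℤ), IsTStep B B' q c s →
    ∀ (H : Polynomial Ω) (σ : ℝ), HLoc B H h σ → ∀ θ ∈ B.R,
      ∃ θ' ∈ B.R, (∀ κ D, VRep h B (H.eval θ) κ D → VRep h B (H.eval θ') κ D) ∧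
        ∃ (lam : ℝ) (I : Finset ℕ) (e : ℕ → k), Clean h B B' (H.eval θ') lam I e ∧
          ∀ κ D, VRep h B (H.eval θ') κ D →
            lam ≤ κ + D * v B.y ∧ ∀ l ∈ I, κ ≤ lam - l * v B.y ∧ l ≤ D

/-- R13: the T-step of a cleaned element. -/
def RowT (k Ω : Type u) [Field k] [Field Ω] [Algebra k Ω] (v : RVal Ω) (r : ℕ) : Prop :=
  ∀ p : ℕ, p.Prime → CharP k p → IsAlgClosed k → Ctx k v r → ∀ t : ℕ, 0 < t → ∀ h : ℕ,
    h = p ^ t → ∀ (B B' : BF k v) (q : ℕ) (c : k) (s : ℝ → ℤ → ℤ), IsTStep B B' q c s →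
    ∀ (f : Ω) (lam : ℝ) (I : Finset ℕ) (e : ℕ → k), Clean h B B' f lam I e →
      ∃ D', VRep h B' f lam D' ∧ ∀ D, (∀ l ∈ I, l ≤ D) →
        ((∀ γ ∈ B'.Γ, lam ≠ (h : ℝ) * γ) → q * D' ≤ D) ∧
        ((∃ γ ∈ B'.Γ, lam = (h : ℝ) * γ) → D' / h ≤ D / h / q)

/-- Subtraction of the constant of `g`. -/
def RowSub (k Ω : Type u) [Field k] [Field Ω] [Algebra k Ω] (v : RVal Ω) (r : ℕ) : Prop :=
  ∀ p : ℕ, p.Prime → CharP k p → IsAlgClosed k → Ctx k v r → ∀ t : ℕ, 0 < t → ∀ h : ℕ,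
    h = p ^ t → ∀ (B : BF k v) (H : Polynomial Ω) (σ : ℝ), HLoc B H h σ → ∀ θ ∈ B.R,
      ∀ γ ∈ B.Γ, ∀ D, 0 < D → D < h → VRep h B (H.eval θ) ((h : ℝ) * γ) D →
        ∃ θ' ∈ B.R, B.Rep (H.eval θ') ((h : ℝ) * γ) D

/-- R14: the end of the polygon block. -/
def RowFin (k Ω : Type u) [Field k] [Field Ω] [Algebra k Ω] (v : RVal Ω) (r : ℕ) : Prop :=
  RowClean k Ω v r → RowT k Ω v r → RowSub k Ω v r → RowPOL k Ω v r

end Pool.Agent.D2h13
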