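import Pool.Agent.Lib.D2_h13.Clean
import Pool.Agent.Lib.D2.RowT
import Pool.Agent.Lib.D2_h2.RowSub
import Pool.Agent.Lib.D2_h19.RowFin

/-!
# DefectTwo: the polygon block (R11-R14)
-/

set_option autoImplicit false

namespace Pool.Agent.D2h13

open Pool.Agent.H15JM (RVal)

universe u

/-- RowPOL. -/
theorem rowPOL {k Ω : Type u} [Field k] [Field Ω] [Algebra k Ω] {v : RVal Ω} {r : ℕ} :
    Pool.Agent.LU3.RowPOL k Ω v r :=
  Pool.Agent.D2h19.rowFin rowClean rowT Pool.Agent.D2h2.rowSub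

end Pool.Agent.D2h13
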