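import Pool.Agent.Lib.D2_h13.Est
import Pool.Agent.Lib.LU1_h15.ASRed

/-!
# DefectTwo, R12: cleaning (helper13)
-/

set_option autoImplicit false

open Polynomial

namespace Pool.Agent.D2h13

open Pool.Agent.H15JM (RVal)
open Pool.Agent.LU1 Pool.Agent.LU1.RepAux Pool.Agent.LU3

universe u

variable {k Ω : Type u} [Field k] [Field Ω] [Algebra k Ω] {v : RVal Ω} {r : ℕ}

/-- The levels of a noetherian frame below a bound form a finite set. -/
theorem finite_levels (u : Fin r → ℝ) (hu : ∀ i, 0 < u i) (β : ℝ) (hβ : 0 < β) (Λ : ℝ) :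
    {x : ℝ | x < Λ ∧ ∃ (n : Fin r → ℕ) (l : ℕ), x = ∑ i, (n i : ℝ) * u i + l * β}.Finite := by
  have hw : ∀ i : Fin (r + 1), 0 < (Fin.cons β u : Fin (r + 1) → ℝ) i := by
    intro i
    refine Fin.cases ?_ (fun j => ?_) i
    · simpa using hβ
    · simpa using hu j
  have h1 := finite_lt (Fin.cons β u : Fin (r + 1) → ℝ) hw Λ
  refine (h1.image fun b => ∑ i, (b i : ℝ) * (Fin.cons β u : Fin (r + 1) → ℝ) i).subset ?_
  rintro x ⟨hx, n, l, rfl⟩
  have h2 : ∑ i, (((Fin.cons l n : Fin (r + 1) → ℕ) i : ℕ) : ℝ) *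
      (Fin.cons β u : Fin (r + 1) → ℝ) i = ∑ i, (n i : ℝ) * u i + l * β := by
    rw [Fin.sum_univ_succ]
    simp only [Fin.cons_zero, Fin.cons_succ]
    ring
  refine ⟨Fin.cons l n, ?_, h2⟩
  rw [Set.mem_ofPred_eq, h2]
  exact hx

section Step

variable {B B' : BF k v} {q : ℕ} {c : k} {s : ℝ → ℤ → ℤ}

/-- The levels of a polynomial are at least the content of its value. -/
theorem levels_ge (hc : Ctx k v r) (hT : IsTStep B B' q c s) {P : (Lau k)[X]}
    (hP : SuppIn B.Γ P) {Λ : ℝ} (hf : Cge B' Λ (B.ev P)) :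
    ∀ γ l, co P γ l ≠ 0 → Λ ≤ γ + l * v B.y := by
  intro γ l hγl
  obtain ⟨lam, L, h1, -, h3, -⟩ := exists_IsLD All P (v B.y) ⟨γ, l, hγl, trivial⟩
  have h1' : ∀ γ l, co P γ l ≠ 0 → lam ≤ γ + l * v B.y := fun γ l h => h1 γ l h trivial
  obtain ⟨D, hr⟩ := rep_ev' hc hT hP h1' ⟨L, mem_lset.2 h3⟩
  exact (hf.le_rep hc hr).trans (h1' γ l hγl)

/-- Elements of positive value of `B.R` have positive content in `B'`. -/
theorem hi_of_vpos (hT : IsTStep B B' q c s) {f : Ω} (hf : f ∈ B.R) (hv : VPos v f) :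
    Hi B' 0 f := by
  obtain ⟨γ, hγ, h0, a, ha, b, hb, rfl⟩ := B.gen f hf hv
  have h1 : Hi B' 0 (B.χ γ * a) := by
    have h2 := ((cge_χ B hγ).ext hT.ext).mul (Cge.of_mem (hT.R_le ha))
    exact h2.hi (by linarith)
  have h2 : Hi B' 0 (B.y * b) := by
    have h3 := cge_mon' hT (1 : k) B.Γ.zero_mem 1
    rw [map_one, one_mul, B.χ_zero, one_mul, pow_one, Nat.cast_one, one_mul, zero_add] at h3
    exact (h3.mul (Cge.of_mem (hT.R_le hb))).hi (by have := B.y_pos; linarith)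
  exact h1.add h2

theorem cge_y_pow (hT : IsTStep B B' q c s) (D : ℕ) : Cge B' (D * v B.y) (B.y ^ D) := by
  have h3 := cge_mon' hT (1 : k) B.Γ.zero_mem D
  rwa [map_one, one_mul, B.χ_zero, one_mul, zero_add] at h3

/-- The visible monomial `(κ, D)` is a monomial of `f`. -/
theorem VRep_level {p : ℕ} [CharP k p] (hp : p.Prime) (hc : Ctx k v r) {t h : ℕ}
    (hh : h = p ^ t) (hT : IsTStep B B' q c s) {f : Ω} {κ : ℝ} {D : ℕ}
    (hf : VRep h B f κ D) : ¬ Hi B' (κ + D * v B.y) f := by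
  classical
  intro hcon
  have h0 : 0 < h := by rw [hh]; exact pow_pos hp.pos t
  have hβ := B.y_pos
  have hDβ : 0 ≤ (D : ℝ) * v B.y := mul_nonneg (Nat.cast_nonneg _) hβ.le
  obtain ⟨hκ, u, hu, δ, hδ, hδ0, a, ha, g, hg, hfe, h1, h2⟩ := hf
  -- divide by `χ(κ)`
  have hb : Hi B' (D * v B.y) (g ^ h + u * B.y ^ D + B.χ δ * a) := by
    have h3 := hi_mul_cge hcon ((cge_χ B (B.Γ.neg_mem hκ)).ext hT.ext)
    have h4 : f * B.χ (-κ) = g ^ h + u * B.y ^ D + B.χ δ * a := by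
      rw [hfe, B.χ_neg hκ]
      field_simp [B.χ_ne κ hκ]
    rw [h4] at h3
    refine h3.mono ?_
    linarith
  -- the constant of `u`
  obtain ⟨c0, hc0, hc0v⟩ := hc.res u hu.2.1 hu.2.2
  have hu1 : Hi B' (D * v B.y) ((u - algebraMap k Ω c0) * B.y ^ D) := by
    have h3 := hi_mul_cge (hi_of_vpos hT (B.R.sub_mem hu.1 (B.R.algebraMap_mem c0)) hc0v)
      (cge_y_pow hT D)
    rwa [zero_add] at h3
  -- the polynomial of `g`
  obtain ⟨Pg, hPg, hPgD, hPge⟩ : ∃ Pg : (Lau k)[X], SuppIn B.Γ Pg ∧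
      (∀ γ l, co Pg γ l ≠ 0 → ¬ h ∣ D) ∧ Hi B' (D * v B.y) (g ^ h - (B.ev Pg) ^ h) := by
    by_cases hg0 : g = 0
    · refine ⟨0, SuppIn.zero _, fun γ l h3 => absurd (co_zero γ l) h3, ?_⟩
      rw [hg0, B.ev_zero, sub_self]
      exact hi_zero _ _
    · have hD : ¬ h ∣ D := by
        apply h2
        by_contra hcon
        push Not at hcon
        exact hg0 (h1 hcon)
      obtain ⟨Pg, hPg, -⟩ := exists_exp hc hT (D * v B.y + 1) (Cge.of_mem hg)
      refine ⟨Pg, hPg.supp, fun _ _ _ => hD, ?_⟩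
      have h3 : g ^ h - (B.ev Pg) ^ h = (g - B.ev Pg) ^ h := by
        have h4 : g ^ h = (g - B.ev Pg) ^ h + (B.ev Pg) ^ h := by
          rw [hh, ← add_pow_h (k := k) hp t, sub_add_cancel]
        rw [h4]; ring
      rw [h3]
      refine (hPg.rem.pow h).hi ?_
      have h5 : (1 : ℝ) ≤ h := by exact_mod_cast h0
      nlinarith
  -- the polynomial of `χ(δ) a`
  obtain ⟨Pa, hPa, hPaδ⟩ := exists_exp hc hT (D * v B.y + 1) (f := B.χ δ * a) (κ := δ)
    ⟨δ, hδ, le_rfl, a, ha, rfl⟩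
  -- the sum
  set Q1 : (Lau k)[X] := ∑ a ∈ mons Pg, C (mon ((h : ℝ) * a.1) ((co Pg a.1 a.2) ^ h)) *
    X ^ (h * a.2) with hQ1
  have hQ1Γ : SuppIn B.Γ Q1 := by
    intro γ l hγl
    rw [hQ1, R1.co_sum] at hγl
    obtain ⟨a, ha, hne⟩ := Finset.exists_ne_zero_of_sum_ne_zero hγl
    rw [C_mul_X_pow_eq_monomial, R1.co_monomial] at hne
    by_cases h3 : ((h : ℝ) * a.1, h * a.2) = (γ, l)
    · obtain ⟨h4, -⟩ := Prod.mk.inj h3
      rw [← h4, ← nsmul_eq_mul]
      exact B.Γ.nsmul_mem (hPg _ _ (mem_mons.1 ha)) h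
    · rw [if_neg h3] at hne
      exact absurd rfl hne
  have hQ1e : B.ev Q1 = (B.ev Pg) ^ h := by
    rw [hQ1, B.ev_sum]
    simp only [B.ev_monomial]
    rw [ev_eq_mons B Pg, hh, sum_pow_h (k := k) hp t]
    refine Finset.sum_congr rfl fun a ha => ?_
    rw [mul_pow, mul_pow, ← hh, B.χ_nsmul (hPg _ _ (mem_mons.1 ha)), map_pow,
      mul_comm h a.2, pow_mul]
  have hQ2Γ : SuppIn B.Γ (C (mon 0 c0) * X ^ D : (Lau k)[X]) := by
    intro γ l hγl
    rw [C_mul_X_pow_eq_monomial, R1.co_monomial] at hγl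
    by_cases h3 : ((0 : ℝ), D) = (γ, l)
    · rw [← (Prod.mk.inj h3).1]; exact B.Γ.zero_mem
    · rw [if_neg h3] at hγl
      exact absurd rfl hγl
  set Q : (Lau k)[X] := Q1 + C (mon 0 c0) * X ^ D + Pa with hQ
  have hQΓ : SuppIn B.Γ Q := (hQ1Γ.add hQ2Γ).add hPa.supp
  have hQe : B.ev Q = (B.ev Pg) ^ h + algebraMap k Ω c0 * B.y ^ D + B.ev Pa := by
    rw [hQ, B.ev_add, B.ev_add, hQ1e, B.ev_monomial, B.χ_zero, mul_one]
  have hQhi : Hi B' (D * v B.y) (B.ev Q) := by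
    have h3 : B.ev Q = (g ^ h + u * B.y ^ D + B.χ δ * a) - (g ^ h - (B.ev Pg) ^ h) -
        (u - algebraMap k Ω c0) * B.y ^ D - (B.χ δ * a - B.ev Pa) := by
      rw [hQe]; ring
    rw [h3]
    refine hi_sub (hi_sub (hi_sub hb hPge) hu1) (hPa.rem.hi ?_)
    linarith
  obtain ⟨Λ', hΛ', hQc⟩ := hi_cge' hQhi
  have hcoQ : co Q 0 D = c0 := by
    rw [hQ, co_add, co_add]
    have h3 : co Q1 0 D = 0 := by
      rw [hQ1, R1.co_sum]
      refine Finset.sum_eq_zero fun a ha => ?_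
      rw [C_mul_X_pow_eq_monomial, R1.co_monomial, if_neg]
      intro h4
      obtain ⟨-, h5⟩ := Prod.mk.inj h4
      exact hPgD _ _ (mem_mons.1 ha) ⟨a.2, h5.symm⟩
    have h4 : co Pa 0 D = 0 := by
      by_contra h5
      exact absurd (hPaδ 0 D h5) (not_le.2 hδ0)
    rw [h3, h4, C_mul_X_pow_eq_monomial, R1.co_monomial, if_pos rfl, zero_add, add_zero]
  have h3 := levels_ge hc hT hQΓ hQc 0 D (by rw [hcoQ]; exact hc0)
  linarith

/-- One round of the cleaning. -/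
theorem clean_step {p : ℕ} [CharP k p] [IsAlgClosed k] (hp : p.Prime) (hc : Ctx k v r) {t h : ℕ}
    (hh : h = p ^ t) (hT : IsTStep B B' q c s) {H : Polynomial Ω} {σ : ℝ} (hH : HLoc B H h σ)
    (N : NF k v r) {S : Set ℝ} {u : Fin r → ℝ} (hu : GoodBasis B.Γ S u)
    (hx : ∀ i, N.x i = B.χ (u i)) (hy : N.y = B.y)
    {θ : Ω} (hθ : θ ∈ B.R) {P : (Lau k)[X]} (hP : IsExp B B' (h * σ) (H.eval θ) P)
    (hPn : ∀ γ l, co P γ l ≠ 0 → ∃ n : Fin r → ℕ, γ = ∑ i, (n i : ℝ) * u i) {lam : ℝ}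
    (hge : ∀ γ l, co P γ l ≠ 0 → lam ≤ γ + l * v B.y)
    (hne : (lset (v B.y) P lam).Nonempty) (hlt : lam < h * σ)
    (hinv : ∀ l ∈ lset (v B.y) P lam, ¬ Vis h B.Γ (lam - l * v B.y) l) :
    ∃ τ ∈ N.R, (∀ κ, Cge B κ (H.eval θ) → Cge B (κ / h) τ) ∧ Hi B' lam (H.eval (θ + τ)) := by
  classical
  have h0 : 0 < h := by rw [hh]; exact pow_pos hp.pos t
  have hpos : (0 : ℝ) < h := by exact_mod_cast h0
  set I := lset (v B.y) P lam with hI
  have hco : ∀ l ∈ I, co P (lam - l * v B.y) l ≠ 0 := fun l hl => mem_lset.1 hl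
  have hdata : ∀ l : ℕ, ∃ (e : k) (d : ℝ) (m : ℕ), l ∈ I → d ∈ B.Γ ∧ l = h * m ∧
      lam - l * v B.y = h * d ∧ e ^ h = co P (lam - l * v B.y) l ∧ B.χ d ∈ N.R := by
    intro l
    by_cases hl : l ∈ I
    · have h1 := hinv l hl
      unfold Vis at h1
      rw [not_not] at h1
      obtain ⟨⟨m, hm⟩, d, hd, hde⟩ := h1
      obtain ⟨e, he⟩ := IsAlgClosed.exists_pow_nat_eq (co P (lam - l * v B.y) l) h0
      refine ⟨e, d, m, fun _ => ⟨hd, hm, hde, he, ?_⟩⟩
      obtain ⟨n, hn⟩ := hPn _ _ (hco l hl)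
      obtain ⟨z, hz⟩ := hu.gen d hd
      have h2 : (fun i => (n i : ℤ)) = fun i => (h : ℤ) * z i := by
        refine NFA.coord_unique hu.ind ?_
        have h3 : ∑ i, (((n i : ℤ) : ℤ) : ℝ) * u i = lam - l * v B.y := by
          rw [hn]; simp
        rw [h3, hde, hz, Finset.mul_sum]
        refine Finset.sum_congr rfl fun i _ => ?_
        push_cast
        ring
      have h3 : ∀ i, 0 ≤ z i := by
        intro i
        have h4 : (n i : ℤ) = (h : ℤ) * z i := congrFun h2 i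
        have h5 : (0 : ℤ) ≤ (h : ℤ) * z i := by rw [← h4]; positivity
        exact nonneg_of_mul_nonneg_right h5 (by exact_mod_cast h0)
      have h4 : d = ∑ i, (((z i).toNat : ℕ) : ℝ) * u i := by
        rw [hz]
        refine Finset.sum_congr rfl fun i _ => ?_
        congr 1
        have := Int.toNat_of_nonneg (h3 i)
        exact_mod_cast this.symm
      rw [h4, (B.χ_sum u hu.mem _).2]
      refine N.R.prod_mem fun i _ => N.R.pow_mem ?_ _
      rw [← hx]; exact N.x_mem i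
    · exact ⟨0, 0, 0, fun h => absurd h hl⟩
  choose e d m hdat using hdata
  -- the correction
  set τ : Ω := -∑ l ∈ I, algebraMap k Ω (e l) * B.χ (d l) * B.y ^ (m l) with hτ
  have hτN : τ ∈ N.R := by
    rw [hτ]
    refine N.R.neg_mem (N.R.sum_mem fun l hl => ?_)
    refine N.R.mul_mem (N.R.mul_mem (N.R.algebraMap_mem _) (hdat l hl).2.2.2.2) ?_
    rw [← hy]; exact N.R.pow_mem N.y_mem _
  have hτh : τ ^ h = -∑ l ∈ I, algebraMap k Ω (co P (lam - l * v B.y) l) *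
      B.χ (lam - l * v B.y) * B.y ^ l := by
    rw [hτ, hh, neg_pow_h (k := k) hp t, sum_pow_h (k := k) hp t, ← hh]
    congr 1
    refine Finset.sum_congr rfl fun l hl => ?_
    obtain ⟨h1, h2, h3, h4, -⟩ := hdat l hl
    rw [mul_pow, mul_pow, ← map_pow, h4, h3, B.χ_nsmul h1, ← pow_mul, mul_comm (m l) h, ← h2]
  have hlam0 : 0 ≤ lam := by
    obtain ⟨l, hl⟩ := hne
    obtain ⟨n, hn⟩ := hPn _ _ (hco l hl)
    have h1 : 0 ≤ lam - l * v B.y := by
      rw [hn]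
      exact Finset.sum_nonneg fun i _ => mul_nonneg (Nat.cast_nonneg _) (hu.pos i).le
    have h2 : 0 ≤ (l : ℝ) * v B.y := mul_nonneg (Nat.cast_nonneg _) B.y_pos.le
    linarith
  have hτ' : Cge B' (lam / h) τ := by
    rw [hτ]
    refine (Cge.sum _ _ fun l hl => ?_).neg
    obtain ⟨h1, h2, h3, h4, -⟩ := hdat l hl
    refine (cge_mon' hT (e l) h1 (m l)).mono ?_
    rw [div_le_iff₀ hpos]
    have h5 : (l : ℝ) = h * m l := by exact_mod_cast h2
    rw [h5] at h3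
    linarith
  refine ⟨τ, hτN, fun κ hκ => ?_, ?_⟩
  · have hγ := hP.gamma_ge hc hT hκ
    rw [hτ]
    refine (Cge.sum _ _ fun l hl => ?_).neg
    obtain ⟨h1, h2, h3, h4, -⟩ := hdat l hl
    refine (cge_mon B (e l) h1 (m l)).mono ?_
    rw [div_le_iff₀ hpos]
    have h5 := hγ _ _ (hco l hl)
    rw [h3] at h5
    linarith
  · have h1 := taylor_est hH h0 hT.ext hθ hlam0 hlt hτ'
    have h2 := hP.rem_level hT hlt hge
    rw [← hI] at h2
    have h3 : H.eval (θ + τ) = (H.eval (θ + τ) - H.eval θ - τ ^ h) +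
        (H.eval θ - ∑ l ∈ I, algebraMap k Ω (co P (lam - l * v B.y) l) *
          B.χ (lam - l * v B.y) * B.y ^ l) := by
      rw [hτh]; ring
    rw [h3]
    exact h1.add h2

end Step

/-- R12. -/
theorem rowClean : RowClean k Ω v r := by
  classical
  intro p hp hchar hac hc t ht h hh B B' q c s hT H σ hH θ hθ
  have := hchar
  have := hac
  have h0 : 0 < h := by rw [hh]; exact pow_pos hp.pos t
  -- the noetherian frame
  obtain ⟨S, G, hS, hG, hTG, hN⟩ := B.exists_NF hc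
    ({θ} ∪ (Finset.range (H.natDegree + 1)).image fun i => H.coeff i) (by
      intro f hf
      rcases Finset.mem_union.1 hf with hf | hf
      · rw [Finset.mem_singleton.1 hf]; exact hθ
      · obtain ⟨i, -, rfl⟩ := Finset.mem_image.1 hf
        exact hH.mem i)
  obtain ⟨u, hu⟩ := B.exists_basis hc S hS
  obtain ⟨N, hNx, hNy, hNR, hNle, hNT⟩ := hN u hu
  have hHN : ∀ i, H.coeff i ∈ N.R := by
    intro i
    by_cases hi : i ≤ H.natDegree
    · refine hNT _ (Finset.mem_union_right _ (Finset.mem_image.2 ⟨i, ?_, rfl⟩))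
      exact Finset.mem_range.2 (by omega)
    · rw [coeff_eq_zero_of_natDegree_lt (not_le.1 hi)]
      exact N.R.zero_mem
  have hθN : θ ∈ N.R := hNT _ (Finset.mem_union_left _ (Finset.mem_singleton_self _))
  have hHev : ∀ θ ∈ N.R, H.eval θ ∈ N.R := by
    intro θ hθ
    rw [eval_eq_sum_range]
    exact N.R.sum_mem fun i _ => N.R.mul_mem (hHN i) (N.R.pow_mem hθ i)
  -- the finite set of levels
  have hfin := finite_levels u hu.pos (v B.y) B.y_pos (h * σ)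
  set 𝓛 := hfin.toFinset with h𝓛
  have hmem𝓛 : ∀ x, x ∈ 𝓛 ↔ x < h * σ ∧ ∃ (n : Fin r → ℕ) (l : ℕ),
      x = ∑ i, (n i : ℝ) * u i + l * v B.y := by
    intro x
    rw [h𝓛, Set.Finite.mem_toFinset]
    rfl
  -- the expansion of `H(θ)`
  have hexp : ∀ θ ∈ N.R, ∃ P : (Lau k)[X], IsExp B B' (h * σ) (H.eval θ) P ∧
      (∀ γ l, co P γ l ≠ 0 → ∃ n : Fin r → ℕ, γ = ∑ i, (n i : ℝ) * u i) ∧
      ∃ lam, (∀ γ l, co P γ l ≠ 0 → lam ≤ γ + l * v B.y) ∧
        (lset (v B.y) P lam).Nonempty ∧ lam < h * σ := by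
    intro θ hθ
    obtain ⟨P, hP, hPn⟩ := exists_exp_NF hc hT N u (fun i => ⟨hu.mem i, hu.pos i⟩) hNx hNy
      hNle (h * σ) (hHev θ hθ)
    obtain ⟨hne, hv⟩ := hH.val θ (hNle hθ)
    exact ⟨P, hP, hPn, hP.exists_level hne hv⟩
  -- the induction
  have main : ∀ n : ℕ, ∀ θ ∈ N.R, ∀ P : (Lau k)[X], IsExp B B' (h * σ) (H.eval θ) P →
      (∀ γ l, co P γ l ≠ 0 → ∃ n : Fin r → ℕ, γ = ∑ i, (n i : ℝ) * u i) →
      ∀ lam, (∀ γ l, co P γ l ≠ 0 → lam ≤ γ + l * v B.y) → (lset (v B.y) P lam).Nonempty →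
        lam < h * σ → (𝓛.filter fun x => lam ≤ x).card ≤ n →
        ∃ θ' ∈ N.R, (∀ κ D, VRep h B (H.eval θ) κ D → VRep h B (H.eval θ') κ D) ∧
          ∃ P' : (Lau k)[X], IsExp B B' (h * σ) (H.eval θ') P' ∧
            (∀ γ l, co P' γ l ≠ 0 → ∃ n : Fin r → ℕ, γ = ∑ i, (n i : ℝ) * u i) ∧
            ∃ lam', (∀ γ l, co P' γ l ≠ 0 → lam' ≤ γ + l * v B.y) ∧ lam' < h * σ ∧
              ∃ l ∈ lset (v B.y) P' lam', Vis h B.Γ (lam' - l * v B.y) l := by
    intro n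
    induction n with
    | zero =>
      intro θ hθ P hP hPn lam hge hne hlt hcard
      exfalso
      obtain ⟨l, hl⟩ := hne
      obtain ⟨n, hn⟩ := hPn _ _ (mem_lset.1 hl)
      have h1 : lam ∈ 𝓛.filter fun x => lam ≤ x := by
        rw [Finset.mem_filter, hmem𝓛]
        exact ⟨⟨hlt, n, l, by rw [← hn]; ring⟩, le_rfl⟩
      have h2 := Finset.card_pos.2 ⟨_, h1⟩
      omega
    | succ n ih =>
      intro θ hθ P hP hPn lam hge hne hlt hcard
      by_cases hvis : ∃ l ∈ lset (v B.y) P lam, Vis h B.Γ (lam - l * v B.y) l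
      · exact ⟨θ, hθ, fun _ _ h => h, P, hP, hPn, lam, hge, hlt, hvis⟩
      · push Not at hvis
        obtain ⟨τ, hτ, hτκ, hτhi⟩ := clean_step hp hc hh hT hH N hu hNx hNy (hNle hθ) hP hPn
          hge hne hlt hvis
        have hθτ : θ + τ ∈ N.R := N.R.add_mem hθ hτ
        obtain ⟨P2, hP2, hP2n, lam2, hge2, hne2, hlt2⟩ := hexp _ hθτ
        have hlam : lam < lam2 := by
          obtain ⟨Λ', hΛ', hcg⟩ := hi_cge' hτhi
          obtain ⟨l, hl⟩ := hne2
          have h1 := hP2.level_ge hc hT hcg _ _ (mem_lset.1 hl)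
          linarith
        have hcard2 : (𝓛.filter fun x => lam2 ≤ x).card ≤ n := by
          have h1 : (𝓛.filter fun x => lam2 ≤ x) ⊂ 𝓛.filter fun x => lam ≤ x := by
            rw [Finset.ssubset_iff_of_subset]
            · obtain ⟨l, hl⟩ := hne
              obtain ⟨n, hn⟩ := hPn _ _ (mem_lset.1 hl)
              refine ⟨lam, ?_, ?_⟩
              · rw [Finset.mem_filter, hmem𝓛]
                exact ⟨⟨hlt, n, l, by rw [← hn]; ring⟩, le_rfl⟩
              · rw [Finset.mem_filter]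
                intro h2
                exact absurd h2.2 (not_le.2 hlam)
            · intro x hx
              rw [Finset.mem_filter] at hx ⊢
              exact ⟨hx.1, hlam.le.trans hx.2⟩
          have h2 := Finset.card_lt_card h1
          omega
        obtain ⟨θ', hθ', hk, hrest⟩ := ih _ hθτ P2 hP2 hP2n lam2 hge2 hne2 hlt2 hcard2
        refine ⟨θ', hθ', fun κ D hV => hk κ D ?_, hrest⟩
        exact VRep_keep hp hc hh hH (hNle hθ) hV (hτκ κ (VRep_cge hc h0 hV))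
  obtain ⟨P, hP, hPn, lam, hge, hne, hlt⟩ := hexp θ hθN
  obtain ⟨θ', hθ', hk, P', hP', hP'n, lam', hge', hlt', l, hl, hvis⟩ :=
    main _ θ hθN P hP hPn lam hge hne hlt le_rfl
  refine ⟨θ', hNle hθ', hk, lam', lset (v B.y) P' lam',
    fun l => co P' (lam' - l * v B.y) l, ⟨?_, ?_, ?_, ⟨l, hl, hvis⟩, ?_⟩, ?_⟩
  · exact fun l hl => hP'.supp _ _ (mem_lset.1 hl)
  · intro l hl
    obtain ⟨n, hn⟩ := hP'n _ _ (mem_lset.1 hl)
    rw [hn]
    exact Finset.sum_nonneg fun i _ => mul_nonneg (Nat.cast_nonneg _) (hu.pos i).le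
  · exact fun l hl => mem_lset.1 hl
  · exact hP'.rem_level hT hlt' hge'
  · intro κ D hV
    have h1 := hP'.gamma_ge hc hT (VRep_cge hc h0 hV)
    have h2 : lam' ≤ κ + D * v B.y := by
      by_contra hcon
      rw [not_le] at hcon
      refine VRep_level hp hc hh hT hV ?_
      have h3 : Cge B' lam' (H.eval θ') := by
        have h4 : H.eval θ' = (H.eval θ' - B.ev P') + B.ev P' := by ring
        rw [h4]
        exact (hP'.rem.mono hlt'.le).add (cge_ev hT hP'.supp hge')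
      exact h3.hi hcon
    refine ⟨h2, fun l hl => ?_⟩
    have h3 := h1 _ _ (mem_lset.1 hl)
    refine ⟨h3, ?_⟩
    have h4 : (l : ℝ) * v B.y ≤ D * v B.y := by linarith
    have h5 := le_of_mul_le_mul_right h4 B.y_pos
    exact_mod_cast h5

end Pool.Agent.D2h13
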