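import Pool.Agent.Lib.D2_h13.NFExp
import Pool.Agent.Lib.D2_h13.PolDefs

/-!
# DefectTwo, R12: the estimates (helper13)
-/

set_option autoImplicit false

open Polynomial

namespace Pool.Agent.D2h13

open Pool.Agent.H15JM (RVal)
open Pool.Agent.LU1 Pool.Agent.LU1.RepAux Pool.Agent.LU3

universe u

variable {k Ω : Type u} [Field k] [Field Ω] [Algebra k Ω] {v : RVal Ω} {r : ℕ}

theorem cge_of {B : BF k v} {c : ℝ} {f : Ω} (hf : CGe B c f) : Cge B c f := hf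

theorem hi_of_cpos {B : BF k v} {f : Ω} (hf : CPos B f) : Hi B 0 f := hf

/-- The Taylor expansion. -/
theorem eval_add_eq (H : Polynomial Ω) (θ τ : Ω) {N : ℕ} (hN : H.natDegree < N) :
    H.eval (θ + τ) = ∑ i ∈ Finset.range N, (hasseDeriv i H).eval θ * τ ^ i := by
  have h1 : H.eval (θ + τ) = (taylor θ H).eval τ := by
    rw [taylor_eval, add_comm]
  rw [h1, eval_eq_sum_range' (by rwa [natDegree_taylor])]
  simp only [taylor_coeff]

/-- `H(θ + τ) = H(θ) + τ^h + (content > κ)` if `τ` has content at least `κ / h`. -/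
theorem taylor_est {B C : BF k v} {H : Polynomial Ω} {h : ℕ} {σ : ℝ} (hH : HLoc B H h σ)
    (h0 : 0 < h) (hE : Ext B C) {θ τ : Ω} (hθ : θ ∈ B.R) {κ : ℝ} (hκ0 : 0 ≤ κ)
    (hκ : κ < h * σ) (hτ : Cge C (κ / h) τ) :
    Hi C κ (H.eval (θ + τ) - H.eval θ - τ ^ h) := by
  classical
  have hpos : (0 : ℝ) < h := by exact_mod_cast h0
  set N := H.natDegree + h + 1 with hN
  have h1 : H.eval (θ + τ) - H.eval θ - τ ^ h = ∑ i ∈ Finset.range N,
      ((hasseDeriv i H).eval θ * τ ^ i - (if i = 0 then H.eval θ else 0) -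
        (if i = h then τ ^ h else 0)) := by
    rw [Finset.sum_sub_distrib, Finset.sum_sub_distrib, ← eval_add_eq H θ τ (by omega),
      Finset.sum_ite_eq', Finset.sum_ite_eq', if_pos (Finset.mem_range.2 (by omega)),
      if_pos (Finset.mem_range.2 (by omega))]
  rw [h1]
  refine hi_sum _ _ _ _ fun i _ => ?_
  rcases Nat.eq_zero_or_pos i with rfl | hi
  · rw [if_pos rfl, if_neg h0.ne, hasseDeriv_zero', pow_zero, mul_one, sub_self, sub_zero]
    exact hi_zero _ _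
  · rw [if_neg hi.ne', sub_zero]
    rcases lt_trichotomy i h with h2 | h2 | h2
    · rw [if_neg h2.ne, sub_zero]
      have h3 := (cge_of (hH.low θ hθ i hi h2)).ext hE
      refine (h3.mul (hτ.pow i)).hi ?_
      have h4 : (0 : ℝ) < (h : ℝ) - i := by
        have : (i : ℝ) < h := by exact_mod_cast h2
        linarith
      have h5 : κ / h < σ := by rwa [div_lt_iff₀ hpos, mul_comm]
      have h6 : ((h : ℝ) - i) * (κ / h) < ((h : ℝ) - i) * σ := mul_lt_mul_of_pos_left h5 h4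
      have h7 : ((h : ℝ) - i) * (κ / h) + i * (κ / h) = κ := by
        field_simp
        ring
      linarith
    · subst h2
      rw [if_pos rfl]
      have h3 : (hasseDeriv i H).eval θ * τ ^ i - τ ^ i =
          ((hasseDeriv i H).eval θ - 1) * τ ^ i := by ring
      rw [h3]
      have h4 := hi_mul_cge (hi_ext hE (hi_of_cpos (hH.unit θ hθ))) (hτ.pow i)
      rwa [zero_add, mul_div_cancel₀ _ hpos.ne'] at h4
    · rw [if_neg h2.ne', sub_zero]
      have h4 := hi_mul_cge (hi_ext hE (hi_of_cpos (hH.high θ hθ i h2))) (hτ.pow i)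
      refine h4.mono ?_
      rw [zero_add]
      have h5 : (h : ℝ) ≤ i := by exact_mod_cast h2.le
      have h6 : (h : ℝ) * (κ / h) ≤ i * (κ / h) :=
        mul_le_mul_of_nonneg_right h5 (div_nonneg hκ0 hpos.le)
      rwa [mul_div_cancel₀ _ hpos.ne'] at h6

/-! ## `VRep` -/

/-- The content of an element with `VRep`. -/
theorem VRep_rep (hc : Ctx k v r) {B : BF k v} {h : ℕ} (h0 : 0 < h) {f : Ω} {κ : ℝ} {D : ℕ}
    (hf : VRep h B f κ D) : ∃ D', B.Rep f κ D' := by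
  obtain ⟨hκ, u, hu, δ, hδ, hδ0, a, ha, g, hg, hfe, h1, h2⟩ := hf
  have hb : B.Rep (u * B.y ^ D + B.χ δ * a) 0 D :=
    ⟨B.Γ.zero_mem, u, hu, δ, hδ, hδ0, a, ha, by rw [B.χ_zero, one_mul]⟩
  have key : ∃ D', B.Rep (g ^ h + u * B.y ^ D + B.χ δ * a) 0 D' := by
    by_cases hg0 : g = 0
    · rw [hg0, zero_pow h0.ne', zero_add]
      exact ⟨D, hb⟩
    · have hD : ¬ h ∣ D := by
        apply h2
        by_contra hcon
        push Not at hcon
        exact hg0 (h1 hcon)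
      obtain ⟨κg, Dg, hκg, hrg⟩ := B.rep_exists hc hg hg0
      have hrp := hrg.pow h
      have h3 : g ^ h + u * B.y ^ D + B.χ δ * a = g ^ h + (u * B.y ^ D + B.χ δ * a) := by ring
      rw [h3]
      rcases hκg.lt_or_eq with h4 | h4
      · refine ⟨D, ?_⟩
        rw [add_comm]
        exact hb.add hrp (Or.inl (mul_pos (by exact_mod_cast h0) h4))
      · rw [← h4, mul_zero] at hrp
        rcases lt_trichotomy (h * Dg) D with h5 | h5 | h5
        · exact ⟨_, hrp.add hb (Or.inr ⟨rfl, h5⟩)⟩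
        · exact absurd ⟨Dg, h5.symm⟩ hD
        · refine ⟨D, ?_⟩
          rw [add_comm]
          exact hb.add hrp (Or.inr ⟨rfl, h5⟩)
  obtain ⟨D', hD'⟩ := key
  have h3 := (B.rep_χ hκ).mul hD'
  rw [add_zero, zero_add] at h3
  exact ⟨D', by rw [hfe]; exact h3⟩

theorem VRep_nonneg (hc : Ctx k v r) {B : BF k v} {h : ℕ} (h0 : 0 < h) {f : Ω} {κ : ℝ} {D : ℕ}
    (hf : VRep h B f κ D) (hfR : f ∈ B.R) : 0 ≤ κ := by
  obtain ⟨D', hD'⟩ := VRep_rep hc h0 hf
  exact (Cge.of_mem hfR).le_rep hc hD'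

theorem VRep_cge (hc : Ctx k v r) {B : BF k v} {h : ℕ} (h0 : 0 < h) {f : Ω} {κ : ℝ} {D : ℕ}
    (hf : VRep h B f κ D) : Cge B κ f := by
  obtain ⟨D', hD'⟩ := VRep_rep hc h0 hf
  exact Cge.of_rep hD'

theorem VRep_le_val (hc : Ctx k v r) {B : BF k v} {h : ℕ} (h0 : 0 < h) {f : Ω} {κ : ℝ} {D : ℕ}
    (hf : VRep h B f κ D) : f ≠ 0 ∧ κ ≤ v f := by
  obtain ⟨D', hD'⟩ := VRep_rep hc h0 hf
  have h1 := hD'.ne_zero hc
  exact ⟨h1, (Cge.of_rep hD').val h1⟩

theorem eval_mem {B : BF k v} {H : Polynomial Ω} {h : ℕ} {σ : ℝ} (hH : HLoc B H h σ) {θ : Ω}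
    (hθ : θ ∈ B.R) : H.eval θ ∈ B.R := by
  rw [eval_eq_sum_range]
  exact B.R.sum_mem fun i _ => B.R.mul_mem (hH.mem i) (B.R.pow_mem hθ i)

/-- Frobenius in `Ω`. -/
theorem add_pow_h {p : ℕ} [CharP k p] (hp : p.Prime) (t : ℕ) (a b : Ω) :
    (a + b) ^ p ^ t = a ^ p ^ t + b ^ p ^ t := by
  have := charP_of_injective_algebraMap (algebraMap k Ω).injective p
  have : Fact p.Prime := ⟨hp⟩
  exact add_pow_char_pow a b p t

theorem neg_pow_h {p : ℕ} [CharP k p] (hp : p.Prime) (t : ℕ) (a : Ω) :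
    (-a) ^ p ^ t = - a ^ p ^ t := by
  have h1 := add_pow_h (k := k) hp t (-a) a
  rw [neg_add_cancel, zero_pow (pow_pos hp.pos t).ne'] at h1
  exact eq_neg_of_add_eq_zero_left h1.symm

theorem sum_pow_h {p : ℕ} [CharP k p] (hp : p.Prime) (t : ℕ) {ι : Type*} (s : Finset ι)
    (f : ι → Ω) : (∑ i ∈ s, f i) ^ p ^ t = ∑ i ∈ s, f i ^ p ^ t := by
  classical
  induction s using Finset.induction_on with
  | empty => rw [Finset.sum_empty, Finset.sum_empty, zero_pow (pow_pos hp.pos t).ne']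
  | insert a s ha ih =>
    rw [Finset.sum_insert ha, Finset.sum_insert ha, add_pow_h (k := k) hp, ih]

/-- `VRep` is kept if `τ` has content at least `κ / h`. -/
theorem VRep_keep {p : ℕ} [CharP k p] (hp : p.Prime) (hc : Ctx k v r) {t h : ℕ}
    (hh : h = p ^ t) {B : BF k v} {H : Polynomial Ω} {σ : ℝ} (hH : HLoc B H h σ) {θ τ : Ω}
    (hθ : θ ∈ B.R) {κ : ℝ} {D : ℕ} (hf : VRep h B (H.eval θ) κ D) (hτ : Cge B (κ / h) τ) :
    VRep h B (H.eval (θ + τ)) κ D := by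
  have h0 : 0 < h := by rw [hh]; exact pow_pos hp.pos t
  have hpos : (0 : ℝ) < h := by exact_mod_cast h0
  have hκ0 := VRep_nonneg hc h0 hf (eval_mem hH hθ)
  have hκ1 : κ < h * σ := (VRep_le_val hc h0 hf).2.trans_lt (hH.val θ hθ).2
  have hest := taylor_est hH h0 (Ext.refl B) hθ hκ0 hκ1 hτ
  obtain ⟨hκ, u, hu, δ, hδ, hδ0, a, ha, g, hg, hfe, h1, h2⟩ := hf
  -- the new remainder
  have hrem : ∀ z : Ω, Hi B κ z → ∃ δ' ∈ B.Γ, 0 < δ' ∧ ∃ a' ∈ B.R,
      B.χ κ * (B.χ δ * a) + z = B.χ κ * (B.χ δ' * a') := by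
    rintro z ⟨γ, hγ, h3, b, hb, rfl⟩
    obtain ⟨c', hc', h4⟩ := B.ideal_add hδ (B.Γ.sub_mem hγ hκ) ha hb
    refine ⟨min δ (γ - κ), ?_, lt_min hδ0 (by linarith), c', hc', ?_⟩
    · rcases min_choice δ (γ - κ) with h5 | h5 <;> rw [h5]
      · exact hδ
      · exact B.Γ.sub_mem hγ hκ
    · rw [← h4]
      have h5 : B.χ γ = B.χ κ * B.χ (γ - κ) := by
        rw [← B.χ_add κ hκ _ (B.Γ.sub_mem hγ hκ)]; congr 1; ring
      rw [h5]; ring
  obtain ⟨γ, hγ, hγκ, b, hb, hτe⟩ := hτ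
  by_cases hin : ∃ γ ∈ B.Γ, κ = (h : ℝ) * γ
  · obtain ⟨κ1, hκ1Γ, hκe⟩ := hin
    have h3 : κ / h = κ1 := by rw [hκe]; field_simp
    rw [h3] at hγκ
    obtain ⟨e, he, hee⟩ := B.χ_dvd hγ hκ1Γ hγκ
    have h4 : τ ^ h = B.χ κ * (e * b) ^ h := by
      rw [hτe, hee, hκe, B.χ_nsmul hκ1Γ, mul_assoc, mul_pow]
    obtain ⟨δ', hδ', hδ'0, a', ha', h5⟩ := hrem _ hest
    refine ⟨hκ, u, hu, δ', hδ', hδ'0, a', ha', g + e * b,
      B.R.add_mem hg (B.R.mul_mem he hb), ?_, ?_, fun _ => h2 ⟨κ1, hκ1Γ, hκe⟩⟩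
    · have h6 : H.eval (θ + τ) = H.eval θ + τ ^ h +
          (H.eval (θ + τ) - H.eval θ - τ ^ h) := by ring
      rw [h6, h4, hfe]
      rw [h4, hfe] at h5
      have h7 : (g + e * b) ^ h = g ^ h + (e * b) ^ h := by
        rw [hh]; exact add_pow_h (k := k) hp t _ _
      rw [h7]
      linear_combination h5
    · intro hcon
      exact absurd hκe (hcon κ1 hκ1Γ)
  · have hg0 : g = 0 := h1 (by
      intro γ' hγ' hcon
      exact hin ⟨γ', hγ', hcon⟩)
    have h3 : Hi B κ (τ ^ h) := by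
      refine ⟨h * γ, ?_, ?_, b ^ h, B.R.pow_mem hb h, ?_⟩
      · rw [← nsmul_eq_mul]; exact B.Γ.nsmul_mem hγ h
      · have h4 : κ ≤ h * γ := by
          have := mul_le_mul_of_nonneg_left hγκ hpos.le
          rwa [mul_div_cancel₀ _ hpos.ne'] at this
        exact lt_of_le_of_ne h4 fun hcon => hin ⟨γ, hγ, hcon⟩
      · rw [hτe, mul_pow, B.χ_nsmul hγ]
    have h4 : Hi B κ (H.eval (θ + τ) - H.eval θ) := by
      have := hest.add h3
      have h5 : H.eval (θ + τ) - H.eval θ - τ ^ h + τ ^ h = H.eval (θ + τ) - H.eval θ := by ring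
      rwa [h5] at this
    obtain ⟨δ', hδ', hδ'0, a', ha', h5⟩ := hrem _ h4
    refine ⟨hκ, u, hu, δ', hδ', hδ'0, a', ha', 0, B.R.zero_mem, ?_, fun _ => rfl, h2⟩
    have h6 : H.eval (θ + τ) = H.eval θ + (H.eval (θ + τ) - H.eval θ) := by ring
    rw [h6, zero_pow h0.ne', zero_add]
    rw [hg0, zero_pow h0.ne', zero_add] at hfe
    rw [hfe]
    rw [hfe] at h5
    linear_combination h5

end Pool.Agent.D2h13
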