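import Pool.Agent.Lib.LU1_h15.Cmp
import Pool.Agent.Lib.LU1_h15.ASAux
import Pool.Agent.Lib.LU1_h15.TStepEx
import Pool.Agent.Lib.LU1_h15.DD

/-!
# DefectTwo, row R11: expansions below a level

For a T-step `B → B'` and a real number `Λ` every `f ∈ B.R` has exactly one expansion
`f = P(χ, y) + (content ≥ Λ in B')` with all monomials of level `γ + l v(y) < Λ`; the least level
is the content of `f` in `B'`.
-/

set_option autoImplicit false

open Polynomial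

namespace Pool.Agent.D2h13

open Pool.Agent.H15JM (RVal)
open Pool.Agent.LU1 Pool.Agent.LU1.RepAux

universe u

variable {k Ω : Type u} [Field k] [Field Ω] [Algebra k Ω] {v : RVal Ω} {r : ℕ}

/-! ## Content at least `Λ` -/

/-- `z ∈ χ(γ) R` for some `γ ≥ Λ`. -/
def Cge (B : BF k v) (Λ : ℝ) (z : Ω) : Prop := ∃ γ ∈ B.Γ, Λ ≤ γ ∧ ∃ a ∈ B.R, z = B.χ γ * a

theorem exists_gt (B : BF k v) (κ : ℝ) : ∃ γ ∈ B.Γ, κ < γ := by
  obtain ⟨δ, hδ, h0⟩ := exists_pos B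
  obtain ⟨n, hn⟩ := exists_nat_gt (κ / δ)
  refine ⟨n * δ, ?_, ?_⟩
  · rw [← nsmul_eq_mul]; exact B.Γ.nsmul_mem hδ n
  · rwa [div_lt_iff₀ h0] at hn

theorem hi_zero (B : BF k v) (κ : ℝ) : Hi B κ 0 := by
  obtain ⟨γ, hγ, h⟩ := exists_gt B κ
  exact ⟨γ, hγ, h, 0, B.R.zero_mem, by rw [mul_zero]⟩

theorem hi_sum (B : BF k v) (κ : ℝ) {ι : Type*} (s : Finset ι) (f : ι → Ω)
    (h : ∀ i ∈ s, Hi B κ (f i)) : Hi B κ (∑ i ∈ s, f i) := by
  classical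
  induction s using Finset.induction_on with
  | empty => simpa using hi_zero B κ
  | insert a s ha ih =>
    rw [Finset.sum_insert ha]
    exact (h a (Finset.mem_insert_self a s)).add (ih fun i hi => h i (Finset.mem_insert_of_mem hi))

namespace Cge

variable {B B' : BF k v} {Λ Λ' κ : ℝ} {z t : Ω}

theorem zero : Cge B Λ 0 := by
  obtain ⟨γ, hγ, h⟩ := exists_gt B Λ
  exact ⟨γ, hγ, h.le, 0, B.R.zero_mem, by rw [mul_zero]⟩

theorem add (hz : Cge B Λ z) (ht : Cge B Λ t) : Cge B Λ (z + t) := by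
  obtain ⟨γ, hγ, h1, a, ha, rfl⟩ := hz
  obtain ⟨δ, hδ, h2, b, hb, rfl⟩ := ht
  obtain ⟨c, hc, h3⟩ := B.ideal_add hγ hδ ha hb
  refine ⟨min γ δ, ?_, le_min h1 h2, c, hc, h3⟩
  rcases min_choice γ δ with h | h <;> rw [h] <;> assumption

theorem neg (hz : Cge B Λ z) : Cge B Λ (-z) := by
  obtain ⟨γ, hγ, h1, a, ha, rfl⟩ := hz
  exact ⟨γ, hγ, h1, -a, B.R.neg_mem ha, by ring⟩

theorem sub (hz : Cge B Λ z) (ht : Cge B Λ t) : Cge B Λ (z - t) := by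
  rw [sub_eq_add_neg]; exact hz.add ht.neg

theorem mono (h : Λ' ≤ Λ) (hz : Cge B Λ z) : Cge B Λ' z := by
  obtain ⟨γ, hγ, h1, a, ha, rfl⟩ := hz
  exact ⟨γ, hγ, h.trans h1, a, ha, rfl⟩

theorem mul (hz : Cge B Λ z) (ht : Cge B Λ' t) : Cge B (Λ + Λ') (z * t) := by
  obtain ⟨γ, hγ, h1, a, ha, rfl⟩ := hz
  obtain ⟨δ, hδ, h2, b, hb, rfl⟩ := ht
  exact ⟨γ + δ, B.Γ.add_mem hγ hδ, add_le_add h1 h2, a * b, B.R.mul_mem ha hb, by
    rw [B.χ_add γ hγ δ hδ]; ring⟩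

theorem of_mem (hz : z ∈ B.R) : Cge B 0 z :=
  ⟨0, B.Γ.zero_mem, le_rfl, z, hz, by rw [B.χ_zero, one_mul]⟩

theorem mem (h0 : 0 ≤ Λ) (hz : Cge B Λ z) : z ∈ B.R := by
  obtain ⟨γ, hγ, h1, a, ha, rfl⟩ := hz
  exact B.R.mul_mem (B.χ_mem γ hγ (h0.trans h1)) ha

theorem mul_mem (hz : Cge B Λ z) (ht : t ∈ B.R) : Cge B Λ (t * z) := by
  have := (of_mem ht).mul hz
  rwa [zero_add] at this

theorem pow (hz : Cge B Λ z) (n : ℕ) : Cge B (n * Λ) (z ^ n) := by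
  induction n with
  | zero => simpa using of_mem B.R.one_mem
  | succ n ih =>
    rw [pow_succ]
    push_cast
    rw [add_mul, one_mul]
    exact ih.mul hz

theorem sum {ι : Type*} (s : Finset ι) (f : ι → Ω)
    (h : ∀ i ∈ s, Cge B Λ (f i)) : Cge B Λ (∑ i ∈ s, f i) := by
  classical
  induction s using Finset.induction_on with
  | empty => simpa using zero
  | insert a s ha ih =>
    rw [Finset.sum_insert ha]
    exact (h a (Finset.mem_insert_self a s)).add (ih fun i hi => h i (Finset.mem_insert_of_mem hi))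

theorem hi (h : κ < Λ) (hz : Cge B Λ z) : Hi B κ z := by
  obtain ⟨γ, hγ, h1, a, ha, rfl⟩ := hz
  exact ⟨γ, hγ, h.trans_le h1, a, ha, rfl⟩

theorem ext (hE : Ext B B') (hz : Cge B Λ z) : Cge B' Λ z := by
  obtain ⟨γ, hγ, h1, a, ha, rfl⟩ := hz
  refine ⟨γ, hE.Γ_le γ hγ, h1, (B.χ γ / B'.χ γ) * a, B'.R.mul_mem (hE.χ_un γ hγ).1 (hE.le ha), ?_⟩
  rw [← mul_assoc, mul_div_cancel₀ _ (B'.χ_ne γ (hE.Γ_le γ hγ))]

theorem val (hz : Cge B Λ z) (h0 : z ≠ 0) : Λ ≤ v z := by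
  obtain ⟨γ, hγ, h1, a, ha, rfl⟩ := hz
  have ha0 : a ≠ 0 := right_ne_zero_of_mul h0
  rw [v.map_mul (B.χ_ne γ hγ) ha0, B.χ_val γ hγ]
  have := B.nonneg a ha ha0
  linarith

theorem le_rep (h : Ctx k v r) {D : ℕ} (hz : Cge B Λ z) (hr : B.Rep z κ D) : Λ ≤ κ := by
  obtain ⟨γ, hγ, h1, a, ha, h2⟩ := hz
  exact h1.trans (BF.Rep.ge_of_mem h hr hγ ha h2)

theorem of_rep {D : ℕ} (hr : B.Rep z κ D) : Cge B κ z := by
  obtain ⟨hκ, u, hu, δ, hδ, h0, a, ha, rfl⟩ := hr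
  exact ⟨κ, hκ, le_rfl, _, B.R.add_mem (B.R.mul_mem hu.1 (B.R.pow_mem B.y_mem D))
    (B.R.mul_mem (B.χ_mem δ hδ h0.le) ha), rfl⟩

end Cge

section HiLemmas

variable {B B' : BF k v} {Λ κ : ℝ} {z t : Ω}

theorem hi_cge (hz : Hi B κ z) : Cge B κ z := by
  obtain ⟨γ, hγ, h1, a, ha, rfl⟩ := hz
  exact ⟨γ, hγ, h1.le, a, ha, rfl⟩

theorem hi_cge' (hz : Hi B κ z) : ∃ Λ, κ < Λ ∧ Cge B Λ z := by
  obtain ⟨γ, hγ, h1, a, ha, rfl⟩ := hz
  exact ⟨γ, h1, γ, hγ, le_rfl, a, ha, rfl⟩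

theorem hi_mul_cge (hz : Hi B κ z) (ht : Cge B Λ t) : Hi B (κ + Λ) (z * t) := by
  obtain ⟨Λ', h1, h2⟩ := hi_cge' hz
  exact (h2.mul ht).hi (by linarith)

theorem hi_ext (hE : Ext B B') (hz : Hi B κ z) : Hi B' κ z := by
  obtain ⟨Λ', h1, h2⟩ := hi_cge' hz
  exact (h2.ext hE).hi h1

theorem hi_sub (hz : Hi B κ z) (ht : Hi B κ t) : Hi B κ (z - t) := by
  rw [sub_eq_add_neg]; exact hz.add ht.neg

theorem hi_mem (h0 : 0 ≤ κ) (hz : Hi B κ z) : z ∈ B.R := (hi_cge hz).mem h0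

end HiLemmas

/-! ## Monomials and levels -/

section Step

variable {B B' : BF k v} {q : ℕ} {c : k} {s : ℝ → ℤ → ℤ}

theorem cge_χ (B : BF k v) {γ : ℝ} (hγ : γ ∈ B.Γ) : Cge B γ (B.χ γ) :=
  ⟨γ, hγ, le_rfl, 1, B.R.one_mem, by rw [mul_one]⟩

/-- The content in `B` of a monomial. -/
theorem cge_mon (B : BF k v) (e : k) {γ : ℝ} (hγ : γ ∈ B.Γ) (l : ℕ) :
    Cge B γ (algebraMap k Ω e * B.χ γ * B.y ^ l) :=
  ⟨γ, hγ, le_rfl, algebraMap k Ω e * B.y ^ l,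
    B.R.mul_mem (B.R.algebraMap_mem e) (B.R.pow_mem B.y_mem l), by ring⟩

/-- The content in `B'` of a monomial of `B` is its level. -/
theorem cge_mon' (hT : IsTStep B B' q c s) (e : k) {γ : ℝ} (hγ : γ ∈ B.Γ) (l : ℕ) :
    Cge B' (γ + l * v B.y) (algebraMap k Ω e * B.χ γ * B.y ^ l) := by
  have h1 := hT.χ_mul hγ (l : ℤ)
  rw [zpow_natCast] at h1
  have hmem : γ + l * v B.y ∈ B'.Γ := by
    refine B'.Γ.add_mem (hT.Γ_le hγ) ?_
    rw [← nsmul_eq_mul]; exact B'.Γ.nsmul_mem hT.β_mem l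
  refine ⟨γ + l * v B.y, hmem, le_rfl, algebraMap k Ω e * (B.w q) ^ (s γ l),
    B'.R.mul_mem (B'.R.algebraMap_mem e) (hT.un_w.zpow _).1, ?_⟩
  rw [mul_assoc, h1]
  push_cast
  ring

/-- The value of a polynomial as a sum over its monomials. -/
theorem ev_eq_mons (B : BF k v) (P : (Lau k)[X]) :
    B.ev P = ∑ a ∈ mons P, algebraMap k Ω (co P a.1 a.2) * B.χ a.1 * B.y ^ a.2 := by
  classical
  rw [B.ev_eq]
  unfold mons
  rw [Finset.sum_biUnion]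
  · refine Finset.sum_congr rfl fun l hl => ?_
    rw [Finset.sum_image]
    intro x _ y _ hxy
    exact (Prod.mk.inj hxy).1
  · intro l1 _ l2 _ hl
    rw [Function.onFun, Finset.disjoint_left]
    rintro ⟨x, y⟩ h1 h2
    simp only [Finset.mem_image, Prod.mk.injEq] at h1 h2
    obtain ⟨_, _, _, h3⟩ := h1
    obtain ⟨_, _, _, h4⟩ := h2
    exact hl (h3.trans h4.symm)

/-- The lower bound for the content in `B'`. -/
theorem cge_ev (hT : IsTStep B B' q c s) {P : (Lau k)[X]} (hP : SuppIn B.Γ P) {Λ : ℝ}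
    (h : ∀ γ l, co P γ l ≠ 0 → Λ ≤ γ + l * v B.y) : Cge B' Λ (B.ev P) := by
  rw [ev_eq_mons]
  refine Cge.sum _ _ fun a ha => ?_
  have h1 : co P a.1 a.2 ≠ 0 := mem_mons.1 ha
  exact (cge_mon' hT _ (hP _ _ h1) _).mono (h _ _ h1)

/-- The lower bound for the content in `B`. -/
theorem cge_ev_base {P : (Lau k)[X]} (hP : SuppIn B.Γ P) {Λ : ℝ}
    (h : ∀ γ l, co P γ l ≠ 0 → Λ ≤ γ) : Cge B Λ (B.ev P) := by
  rw [ev_eq_mons]
  refine Cge.sum _ _ fun a ha => ?_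
  have h1 : co P a.1 a.2 ≠ 0 := mem_mons.1 ha
  exact (cge_mon B _ (hP _ _ h1) _).mono (h _ _ h1)

/-- The exponents of `y` on the level `lam`. -/
noncomputable def lset (β : ℝ) (P : (Lau k)[X]) (lam : ℝ) : Finset ℕ := by
  classical
  exact P.support.filter fun l : ℕ => co P (lam - l * β) l ≠ 0

theorem mem_lset {β : ℝ} {P : (Lau k)[X]} {lam : ℝ} {l : ℕ} :
    l ∈ lset β P lam ↔ co P (lam - l * β) l ≠ 0 := by
  classical
  unfold lset
  rw [Finset.mem_filter]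
  exact ⟨fun h => h.2, fun h => ⟨DD.mem_support_of_co h, h⟩⟩

/-- The part of the lowest level, and the rest. -/
theorem ev_level (hT : IsTStep B B' q c s) {P : (Lau k)[X]} (hP : SuppIn B.Γ P) {lam : ℝ}
    (h : ∀ γ l, co P γ l ≠ 0 → lam ≤ γ + l * v B.y) :
    Hi B' lam (B.ev P - ∑ l ∈ lset (v B.y) P lam,
      algebraMap k Ω (co P (lam - l * v B.y) l) * B.χ (lam - l * v B.y) * B.y ^ l) := by
  classical
  have h1 : ∑ l ∈ lset (v B.y) P lam,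
      algebraMap k Ω (co P (lam - l * v B.y) l) * B.χ (lam - l * v B.y) * B.y ^ l =
      ∑ a ∈ (mons P).filter (fun a => a.1 + a.2 * v B.y = lam),
        algebraMap k Ω (co P a.1 a.2) * B.χ a.1 * B.y ^ a.2 := by
    refine Finset.sum_bij (fun l _ => (lam - l * v B.y, l)) ?_ ?_ ?_ ?_
    · intro l hl
      rw [Finset.mem_filter]
      exact ⟨mem_mons.2 (mem_lset.1 hl), by simp⟩
    · intro l _ m _ hlm
      exact (Prod.mk.inj hlm).2
    · rintro ⟨γ, l⟩ ha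
      rw [Finset.mem_filter] at ha
      obtain ⟨ha1, ha2⟩ := ha
      simp only at ha2
      have h2 : γ = lam - l * v B.y := by linarith
      refine ⟨l, ?_, ?_⟩
      · rw [mem_lset, ← h2]; exact mem_mons.1 ha1
      · rw [h2]
    · intro l _
      rfl
  rw [h1, ev_eq_mons, ← Finset.sum_filter_add_sum_filter_not (mons P)
    (fun a => a.1 + a.2 * v B.y = lam), add_sub_cancel_left]
  refine hi_sum _ _ _ _ fun a ha => ?_
  rw [Finset.mem_filter] at ha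
  have h2 : co P a.1 a.2 ≠ 0 := mem_mons.1 ha.1
  exact (cge_mon' hT _ (hP _ _ h2) _).hi (lt_of_le_of_ne (h _ _ h2) (Ne.symm ha.2))

/-- The lowest level is the content in `B'`. -/
theorem rep_ev' (h : Ctx k v r) (hT : IsTStep B B' q c s) {P : (Lau k)[X]}
    (hP : SuppIn B.Γ P) {lam : ℝ} (hge : ∀ γ l, co P γ l ≠ 0 → lam ≤ γ + l * v B.y)
    (hne : (lset (v B.y) P lam).Nonempty) : ∃ D, B'.Rep (B.ev P) lam D := by
  classical
  set I := lset (v B.y) P lam with hI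
  have hmem : ∀ l : ℕ, l ∈ I ↔ co P (lam - l * v B.y) l ≠ 0 := fun l => mem_lset
  have hΓ : ∀ l ∈ I, lam - l * v B.y ∈ B.Γ := fun l hl => hP _ _ ((hmem l).1 hl)
  have hlam : lam ∈ B'.Γ := by
    obtain ⟨l, hl⟩ := hne
    have h1 : lam = (lam - l * v B.y) + l * v B.y := by ring
    rw [h1]
    refine B'.Γ.add_mem (hT.Γ_le (hΓ l hl)) ?_
    rw [← nsmul_eq_mul]; exact B'.Γ.nsmul_mem hT.β_mem l
  obtain ⟨N, hN⟩ : ∃ N : ℕ, ∀ l ∈ I, 0 ≤ s (lam - l * v B.y) l + N := by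
    refine ⟨∑ l ∈ I, (s (lam - l * v B.y) l).natAbs, fun l hl => ?_⟩
    have h1 : (s (lam - l * v B.y) l).natAbs ≤ ∑ l ∈ I, (s (lam - l * v B.y) l).natAbs :=
      Finset.single_le_sum (f := fun l : ℕ => (s (lam - l * v B.y) l).natAbs)
        (fun _ _ => Nat.zero_le _) hl
    have h2 : -((s (lam - l * v B.y) l).natAbs : ℤ) ≤ s (lam - l * v B.y) l := by
      rw [Int.natCast_natAbs]; exact neg_abs_le _
    have h3 : ((s (lam - l * v B.y) l).natAbs : ℤ) ≤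
        ((∑ l ∈ I, (s (lam - l * v B.y) l).natAbs : ℕ) : ℤ) := by exact_mod_cast h1
    linarith
  obtain ⟨d, lo, hi, hlo, hhi, -, -, hd1, hd2⟩ := DD.class_ord hT.latData hT.c_ne hP I hne
    (fun l hl => (hmem l).1 hl) (fun l => co P (lam - l * v B.y) l) (fun l hl => (hmem l).1 hl)
    (fun l => (s (lam - l * v B.y) l + N).toNat) (-N) (fun l hl => by
      rw [Int.toNat_of_nonneg (hN l hl)]; ring)
  set p : k[X] := ∑ l ∈ I, C (co P (lam - l * v B.y) l) *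
    (C c + X : k[X]) ^ (s (lam - l * v B.y) l + N).toNat with hp
  -- the level part
  have hw : B.w q = algebraMap k Ω c + B'.y := by rw [hT.y_eq]; ring
  have hw0 : B.w q ≠ 0 := hT.w_ne
  have hpart : ∑ l ∈ I, algebraMap k Ω (co P (lam - l * v B.y) l) * B.χ (lam - l * v B.y) *
      B.y ^ l = B'.χ lam * ((B.w q) ^ (-(N : ℤ)) * aeval B'.y p) := by
    rw [hp, map_sum, Finset.mul_sum, Finset.mul_sum]
    refine Finset.sum_congr rfl fun l hl => ?_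
    have h1 := hT.χ_mul (hΓ l hl) (l : ℤ)
    rw [zpow_natCast] at h1
    push_cast at h1
    rw [sub_add_cancel] at h1
    have h2 : (B.w q) ^ (s (lam - l * v B.y) l) = (B.w q) ^ (-(N : ℤ)) *
        (B.w q) ^ (s (lam - l * v B.y) l + N).toNat := by
      rw [← zpow_natCast, Int.toNat_of_nonneg (hN l hl), ← zpow_add₀ hw0]
      congr 1; ring
    rw [mul_assoc, h1, h2, map_mul, map_pow, map_add, aeval_C, aeval_C, aeval_X, ← hw]
    ring
  have hpd : ∃ u, B'.Un u ∧ aeval B'.y p = u * B'.y ^ d := by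
    have h1 : (X : k[X]) ^ d ∣ p := X_pow_dvd_iff.2 hd2
    obtain ⟨p1, hp1⟩ := h1
    refine ⟨aeval B'.y p1, ?_, ?_⟩
    · have h2 : p1.coeff 0 ≠ 0 := by
        have h3 : p.coeff d = p1.coeff 0 := by
          rw [hp1, mul_comm, coeff_mul_X_pow', if_pos le_rfl, Nat.sub_self]
        rwa [← h3]
      have h3 : aeval B'.y p1 = algebraMap k Ω (p1.coeff 0) + B'.y * aeval B'.y p1.divX := by
        conv_lhs => rw [← divX_mul_X_add p1]
        rw [map_add, map_mul, aeval_X, aeval_C]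
        ring
      rw [h3]
      have h4 : aeval B'.y p1.divX ∈ B'.R := by
        have h5 := Subalgebra.aeval_coe B'.R ⟨B'.y, B'.y_mem⟩ p1.divX
        rw [h5]; exact SetLike.coe_mem _
      refine (BF.Un.const h h2).add_vpos (B'.R.mul_mem B'.y_mem h4) ?_
      exact B'.vpos_y.mul (B'.nonneg _ h4)
    · rw [hp1, map_mul, map_pow, aeval_X]; ring
  obtain ⟨u, hu, hue⟩ := hpd
  refine ⟨d, (rep_iff hlam).2 ⟨(B.w q) ^ (-(N : ℤ)) * u, (hT.un_w.zpow _).mul hu, ?_⟩⟩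
  have h1 := ev_level hT hP hge
  rw [← hI, hpart, hue] at h1
  have h2 : B'.χ lam * ((B.w q) ^ (-(N : ℤ)) * u * B'.y ^ d) =
      B'.χ lam * ((B.w q) ^ (-(N : ℤ)) * (u * B'.y ^ d)) := by ring
  rw [h2]
  exact h1

/-! ## Expansions -/

/-- `P` is the expansion of `f` below the level `Λ`. -/
structure IsExp (B B' : BF k v) (Λ : ℝ) (f : Ω) (P : (Lau k)[X]) : Prop where
  supp : SuppIn B.Γ P
  lt : ∀ γ l, co P γ l ≠ 0 → γ + l * v B.y < Λ
  rem : Cge B' Λ (f - B.ev P)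

/-- The levels of the expansion are at least the content in `B'`. -/
theorem IsExp.level_ge (h : Ctx k v r) (hT : IsTStep B B' q c s) {Λ Λ' : ℝ} {f : Ω}
    {P : (Lau k)[X]} (hE : IsExp B B' Λ f P) (hf : Cge B' Λ' f) :
    ∀ γ l, co P γ l ≠ 0 → Λ' ≤ γ + l * v B.y := by
  intro γ l hγl
  obtain ⟨lam, L, h1, -, h3, -⟩ := exists_IsLD All P (v B.y) ⟨γ, l, hγl, trivial⟩
  have h1' : ∀ γ l, co P γ l ≠ 0 → lam ≤ γ + l * v B.y := fun γ l h => h1 γ l h trivial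
  obtain ⟨D, hr⟩ := rep_ev' h hT hE.supp h1' ⟨L, mem_lset.2 h3⟩
  have hlt : lam < Λ := by
    have := hE.lt _ _ h3
    rwa [sub_add_cancel] at this
  have h4 : Cge B' (min Λ Λ') (B.ev P) := by
    have h5 : B.ev P = f - (f - B.ev P) := by ring
    rw [h5]
    exact (hf.mono (min_le_right _ _)).sub (hE.rem.mono (min_le_left _ _))
  have h5 := h4.le_rep h hr
  have h6 : Λ' ≤ lam := by
    rcases min_choice Λ Λ' with h7 | h7
    · rw [h7] at h5; linarith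
    · rwa [h7] at h5
  exact h6.trans (h1' γ l hγl)

theorem IsExp.sub {Λ : ℝ} {f g : Ω} {P Q : (Lau k)[X]}
    (hP : IsExp B B' Λ f P) (hQ : IsExp B B' Λ g Q) : IsExp B B' Λ (f - g) (P - Q) := by
  refine ⟨hP.supp.sub hQ.supp, fun γ l h => ?_, ?_⟩
  · rw [co_sub] at h
    by_cases h1 : co P γ l = 0
    · exact hQ.lt γ l fun h2 => h (by rw [h1, h2, sub_zero])
    · exact hP.lt γ l h1
  · rw [B.ev_sub]
    have h1 : f - g - (B.ev P - B.ev Q) = (f - B.ev P) - (g - B.ev Q) := by ring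
    rw [h1]
    exact hP.rem.sub hQ.rem

/-- The expansion is unique. -/
theorem IsExp.unique (h : Ctx k v r) (hT : IsTStep B B' q c s) {Λ : ℝ} {f : Ω}
    {P Q : (Lau k)[X]} (hP : IsExp B B' Λ f P) (hQ : IsExp B B' Λ f Q) : P = Q := by
  have h1 := hP.sub hQ
  rw [sub_self] at h1
  have h2 := h1.level_ge h hT (Λ' := Λ) Cge.zero
  refine co_ext fun γ l => ?_
  by_contra hcon
  have h3 : co (P - Q) γ l ≠ 0 := by
    rw [co_sub]; exact sub_ne_zero.2 hcon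
  exact absurd (h1.lt γ l h3) (not_lt.2 (h2 γ l h3))

/-- Truncation of a polynomial. -/
theorem ev_pf_add (B : BF k v) (V : ℝ → ℕ → Prop) (P : (Lau k)[X]) :
    B.ev P = B.ev (pf V P) + B.ev (pf (fun γ l => ¬ V γ l) P) := by
  rw [← B.ev_add, pf_add_pf]

/-- Existence in a noetherian frame. -/
theorem exists_exp_NF (h : Ctx k v r) (hT : IsTStep B B' q c s) (N : NF k v r)
    (u : Fin r → ℝ) (hu : ∀ i, u i ∈ B.Γ ∧ 0 < u i) (hx : ∀ i, N.x i = B.χ (u i))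
    (hy : N.y = B.y) (hR : N.R ≤ B.R) (Λ : ℝ) {f : Ω} (hf : f ∈ N.R) :
    ∃ P : (Lau k)[X], IsExp B B' Λ f P ∧
      ∀ γ l, co P γ l ≠ 0 → ∃ n : Fin r → ℕ, γ = ∑ i, (n i : ℝ) * u i := by
  classical
  obtain ⟨ε, hε, hεu, hεy⟩ : ∃ ε : ℝ, (ε = v B.y ∨ ∃ i, ε = u i) ∧ (∀ i, ε ≤ u i) ∧ ε ≤ v B.y := by
    obtain ⟨i, -, hi⟩ := Finset.exists_min_image Finset.univ u ⟨⟨0, h.rpos⟩, Finset.mem_univ _⟩
    rcases le_total (u i) (v B.y) with h1 | h1
    · exact ⟨u i, Or.inr ⟨i, rfl⟩, fun j => hi j (Finset.mem_univ j), h1⟩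
    · exact ⟨v B.y, Or.inl rfl, fun j => h1.trans (hi j (Finset.mem_univ j)), le_rfl⟩
  have hεpos : 0 < ε := by
    rcases hε with rfl | ⟨i, rfl⟩
    · exact B.y_pos
    · exact (hu i).2
  have hεm : ε ∈ B'.Γ := by
    rcases hε with rfl | ⟨i, rfl⟩
    · exact hT.β_mem
    · exact hT.Γ_le (hu i).1
  obtain ⟨M, hM⟩ := exists_nat_gt (Λ / ε)
  have hM2 : Λ < M * ε := by rwa [div_lt_iff₀ hεpos] at hM
  obtain ⟨P, hPn, hPΓ, hP0, hPe⟩ := NF.expand h B N u hu hx hy f hf M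
  have hdiv : ∀ f : Ω, B'.Mono f → ε ≤ v f → ∃ a ∈ B'.R, f = B'.χ ε * a := by
    intro f hf hv
    refine ⟨f / B'.χ ε, (hf.div (BF.Mono.χ hεm)).mem ?_, ?_⟩
    · rw [v.map_div hf.1 (B'.χ_ne ε hεm), B'.χ_val ε hεm]
      linarith
    · rw [mul_div_cancel₀ _ (B'.χ_ne ε hεm)]
  obtain ⟨a, ha, hev⟩ := N.inPow_dvd B'.R (hR.trans hT.R_le) (B'.χ ε)
    (fun i => hdiv _ (by rw [hx]; exact hT.ext.mono (BF.Mono.χ (hu i).1))
      (by rw [hx, B.χ_val _ (hu i).1]; exact hεu i))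
    (hdiv _ (by rw [hy]; exact hT.mono_y) (by rw [hy]; exact hεy)) M _ hPe
  rw [← B'.χ_nsmul hεm] at hev
  have hMε : (M : ℝ) * ε ∈ B'.Γ := by
    rw [← nsmul_eq_mul]; exact B'.Γ.nsmul_mem hεm _
  have hrem : Cge B' Λ (f - B.ev P) := ⟨M * ε, hMε, hM2.le, a, ha, hev⟩
  refine ⟨pf (fun γ l => γ + l * v B.y < Λ) P, ⟨hPΓ.pf _, fun γ l h1 => (co_pf_ne h1).1, ?_⟩,
    fun γ l h1 => hPn γ l (co_pf_ne h1).2⟩
  have h1 := ev_pf_add B (fun γ l => γ + l * v B.y < Λ) P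
  have h2 : f - B.ev (pf (fun γ l => γ + l * v B.y < Λ) P) =
      (f - B.ev P) + B.ev (pf (fun γ l => ¬ γ + l * v B.y < Λ) P) := by
    rw [h1]; ring
  rw [h2]
  exact hrem.add (cge_ev hT (hPΓ.pf _) fun γ l h3 => not_lt.1 (co_pf_ne h3).1)

/-- Existence, with the content in `B`. -/
theorem exists_exp (h : Ctx k v r) (hT : IsTStep B B' q c s) (Λ : ℝ) {f : Ω} {κ : ℝ}
    (hf : Cge B κ f) : ∃ P : (Lau k)[X], IsExp B B' Λ f P ∧ ∀ γ l, co P γ l ≠ 0 → κ ≤ γ := by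
  classical
  obtain ⟨g, hg, hκg, a, ha, rfl⟩ := hf
  obtain ⟨S, G, hS, hG, hTG, hN⟩ := B.exists_NF h {a} (by
    intro b hb; rw [Finset.mem_singleton.1 hb]; exact ha)
  obtain ⟨u, hu⟩ := B.exists_basis h S hS
  obtain ⟨N, hNx, hNy, hNR, hNle, hNT⟩ := hN u hu
  obtain ⟨P, hP, hPn⟩ := exists_exp_NF h hT N u (fun i => ⟨hu.mem i, hu.pos i⟩) hNx hNy hNle
    (Λ - g) (hNT a (by simp))
  have hco : ∀ γ l, co (C (mon g 1) * P) γ l = co P (γ - g) l := NFc.co_mon_mul g P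
  have hCΓ : SuppIn B.Γ (C (mon g 1) : (Lau k)[X]) := EvalAux.suppIn_C hg 1
  have hev : B.ev (C (mon g 1) * P) = B.χ g * B.ev P := by
    rw [B.ev_mul hCΓ hP.supp, EvalAux.ev_C, map_one, one_mul]
  refine ⟨C (mon g 1) * P, ⟨hCΓ.mul hP.supp, fun γ l h1 => ?_, ?_⟩, fun γ l h1 => ?_⟩
  · rw [hco] at h1
    have := hP.lt _ _ h1
    linarith
  · rw [hev, ← mul_sub]
    have h1 := (Cge.ext hT.ext (cge_χ B hg)).mul hP.rem
    rwa [add_sub_cancel] at h1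
  · rw [hco] at h1
    obtain ⟨n, hn⟩ := hPn _ _ h1
    have h2 : 0 ≤ γ - g := by
      rw [hn]
      exact Finset.sum_nonneg fun i _ => mul_nonneg (Nat.cast_nonneg _) (hu.pos i).le
    linarith

/-- The exponents of the expansion are at least the content in `B`. -/
theorem IsExp.gamma_ge (h : Ctx k v r) (hT : IsTStep B B' q c s) {Λ κ : ℝ} {f : Ω}
    {P : (Lau k)[X]} (hE : IsExp B B' Λ f P) (hf : Cge B κ f) :
    ∀ γ l, co P γ l ≠ 0 → κ ≤ γ := by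
  obtain ⟨Q, hQ, hQκ⟩ := exists_exp h hT Λ hf
  rw [hE.unique h hT hQ]
  exact hQκ

/-- The lowest level exists if the value is small. -/
theorem IsExp.exists_level {Λ : ℝ} {f : Ω}
    {P : (Lau k)[X]} (hE : IsExp B B' Λ f P) (hf0 : f ≠ 0) (hf : v f < Λ) :
    ∃ lam, (∀ γ l, co P γ l ≠ 0 → lam ≤ γ + l * v B.y) ∧ (lset (v B.y) P lam).Nonempty ∧
      lam < Λ := by
  have hP0 : ∃ γ l, co P γ l ≠ 0 := by
    by_contra hcon
    push Not at hcon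
    have h1 : P = 0 := co_ext fun γ l => by rw [hcon, co_zero]
    have h2 := hE.rem
    rw [h1, B.ev_zero, sub_zero] at h2
    exact absurd (h2.val hf0) (not_le.2 hf)
  obtain ⟨γ, l, hγl⟩ := hP0
  obtain ⟨lam, L, h1, -, h3, -⟩ := exists_IsLD All P (v B.y) ⟨γ, l, hγl, trivial⟩
  refine ⟨lam, fun γ l h => h1 γ l h trivial, ⟨L, mem_lset.2 h3⟩, ?_⟩
  have := hE.lt _ _ h3
  rwa [sub_add_cancel] at this

/-- The value of a cleaned element is at least its lowest level. -/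
theorem IsExp.rem_level (hT : IsTStep B B' q c s) {Λ : ℝ} {f : Ω}
    {P : (Lau k)[X]} (hE : IsExp B B' Λ f P) {lam : ℝ} (hlt : lam < Λ)
    (hge : ∀ γ l, co P γ l ≠ 0 → lam ≤ γ + l * v B.y) :
    Hi B' lam (f - ∑ l ∈ lset (v B.y) P lam,
      algebraMap k Ω (co P (lam - l * v B.y) l) * B.χ (lam - l * v B.y) * B.y ^ l) := by
  have h1 := ev_level hT hE.supp hge
  have h2 := (hE.rem.hi hlt).add h1
  have h3 : f - B.ev P + (B.ev P - ∑ l ∈ lset (v B.y) P lam,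
      algebraMap k Ω (co P (lam - l * v B.y) l) * B.χ (lam - l * v B.y) * B.y ^ l) =
      f - ∑ l ∈ lset (v B.y) P lam,
      algebraMap k Ω (co P (lam - l * v B.y) l) * B.χ (lam - l * v B.y) * B.y ^ l := by ring
  rwa [h3] at h2

end Step

end Pool.Agent.D2h13
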